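import Mathlib

set_option autoImplicit false

namespace Pool.Agent.Results.MP_558aee_co.Ex

open Matrix Polynomial

def S {n : ℕ} (G : SimpleGraph (Fin n)) : Set (Matrix (Fin n) (Fin n) ℝ) :=
  {A | A.IsSymm ∧ ∀ i j, i ≠ j → (A i j ≠ 0 ↔ G.Adj i j)}

noncomputable def q {n : ℕ} (G : SimpleGraph (Fin n)) : ℕ :=
  sInf {k | ∃ A ∈ S G, k = (spectrum ℝ A).ncard}

def Achieves {n : ℕ} (G : SimpleGraph (Fin n)) (k : ℕ) : Prop :=
  ∃ A ∈ S G, ∃ a b : ℝ, a ≠ b ∧ A.charpoly = (X - C a) ^ (n - k) * (X - C b) ^ k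

noncomputable def MB {n : ℕ} (G : SimpleGraph (Fin n)) : ℕ :=
  sInf {k | 1 ≤ k ∧ k ≤ n / 2 ∧ Achieves G k}

noncomputable def mrPlus {n : ℕ} (G : SimpleGraph (Fin n)) : ℕ :=
  sInf {r | ∃ A ∈ S G, A.PosSemidef ∧ A.rank = r}

lemma low {n : ℕ} (G : SimpleGraph (Fin n)) {i j : Fin n} (h : G.Adj i j) (A : Matrix (Fin n) (Fin n) ℝ)
    (hA : A ∈ S G) : 2 ≤ (spectrum ℝ A).ncard := by
  have hH : A.IsHermitian := by simpa [Matrix.IsHermitian] using hA.1.eq
  by_contra hc
  rw [hH.spectrum_real_eq_range_eigenvalues] at hc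
  have h1 : ∀ k, hH.eigenvalues k = hH.eigenvalues i := fun k =>
    (Set.ncard_le_one (Set.finite_range _)).1 (by omega) _ ⟨k, rfl⟩ _ ⟨i, rfl⟩
  have h2 : A = hH.eigenvalues i • (1 : Matrix (Fin n) (Fin n) ℝ) := by
    have : Matrix.diagonal (RCLike.ofReal ∘ hH.eigenvalues) =
        hH.eigenvalues i • (1 : Matrix (Fin n) (Fin n) ℝ) := by
      ext a b
      by_cases e : a = b <;> simp [e, h1 b]
    conv_lhs => rw [hH.spectral_theorem, this]
    simp
  refine (hA.2 i j h.ne).2 h ?_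
  rw [h2]
  simp [h.ne]

lemma proj {n : ℕ} (G : SimpleGraph (Fin n)) (k : ℕ) (h : Achieves G k) :
    ∃ B ∈ S G, ∃ c : ℝ, B * B = c • B ∧ B.rank ≤ k := by
  obtain ⟨A, hA, a, b, hab, hc⟩ := h
  have hH : A.IsHermitian := by simpa [Matrix.IsHermitian] using hA.1.eq
  have hr := hH.roots_charpoly_eq_eigenvalues
  rw [hc, roots_mul (mul_ne_zero (pow_ne_zero _ (X_sub_C_ne_zero a)) (pow_ne_zero _ (X_sub_C_ne_zero b))),
    roots_pow, roots_pow, roots_X_sub_C, roots_X_sub_C] at hr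
  have h1 : ∀ i, hH.eigenvalues i = a ∨ hH.eigenvalues i = b := fun i => by
    have : hH.eigenvalues i ∈ (n - k) • ({a} : Multiset ℝ) + k • {b} := by
      rw [hr]; exact Multiset.mem_map.2 ⟨i, by simp, rfl⟩
    simp only [Multiset.mem_add, Multiset.mem_nsmul, Multiset.mem_singleton] at this
    tauto
  have h2 : (Finset.univ.filter fun i => b = hH.eigenvalues i).card = k := by
    have := congrArg (Multiset.count b) hr
    rw [Multiset.count_map] at this
    simpa [hab.symm, Finset.card, Finset.filter] using this.symm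
  set U : Matrix (Fin n) (Fin n) ℝ := ↑hH.eigenvectorUnitary
  have hU : star U * U = 1 := Unitary.coe_star_mul_self _
  have hU' : U * star U = 1 := Unitary.coe_mul_star_self _
  have hB : A - a • 1 = U * diagonal (fun i => hH.eigenvalues i - a) * star U := by
    have : diagonal (fun i => hH.eigenvalues i - a) =
        diagonal (RCLike.ofReal ∘ hH.eigenvalues) - a • (1 : Matrix (Fin n) (Fin n) ℝ) := by
      ext i j
      by_cases e : i = j <;> simp [e]
    rw [this, Matrix.mul_sub, Matrix.sub_mul, Matrix.mul_smul, Matrix.mul_one, Matrix.smul_mul, hU']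
    congr 1
    exact hH.spectral_theorem
  refine ⟨A - a • 1, ⟨hA.1.sub (isSymm_one.smul a), fun i j e => by simpa [e] using hA.2 i j e⟩,
    b - a, ?_, ?_⟩
  · rw [hB]
    simp only [Matrix.mul_assoc]
    rw [← Matrix.mul_assoc (star U), hU, Matrix.one_mul, ← Matrix.mul_assoc (diagonal _),
      diagonal_mul_diagonal, ← Matrix.mul_smul, ← Matrix.smul_mul]
    congr 2
    ext i j
    by_cases e : i = j
    · rcases h1 j with t | t <;> simp [e, t]
    · simp [e]
  · rw [hB]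
    refine (rank_mul_le_left _ _).trans ((rank_mul_le_right _ _).trans ?_)
    rw [rank_diagonal, Fintype.card_subtype, ← h2]
    refine Finset.card_le_card fun i hi => ?_
    rcases h1 i with t | t <;> simp_all

def W : Matrix (Fin 3) (Fin 9) ℤ :=
  !![1, 0, 0, 0, 0, 1, 1, 1, 1; 0, 1, 0, 1, 1, 0, 0, 1, 1; 0, 0, 1, 1, -1, 1, -1, -1, 1]

def G : SimpleGraph (Fin 9) where
  Adj i j := i ≠ j ∧ ∑ k, W k i * W k j ≠ 0
  symm := ⟨by decide⟩
  loopless := ⟨by decide⟩

instance : DecidableRel G.Adj := fun i j =>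
  inferInstanceAs (Decidable (i ≠ j ∧ ∑ k, W k i * W k j ≠ 0))

lemma alg (p r s b2 b3 c1 c3 d1 d2 d3 B2 B3 C1 C3 D1 D2 D3 : ℝ) (hp : 0 < p * r)
    (n1 : b3 * B3 * c3 * C3 ≠ 0) (n2 : d3 * D3 ≠ 0)
    (e1 : b2 * B2 * s + b3 * B3 * r = 0) (e2 : c1 * C1 * s + c3 * C3 * p = 0)
    (e3 : b2 * d2 * s + b3 * d3 * r = 0) (e4 : c1 * d1 * s + c3 * d3 * p = 0)
    (e5 : B2 * D2 * s + B3 * D3 * r = 0) (e6 : C1 * D1 * s + C3 * D3 * p = 0)
    (e7 : d1 * d2 + D1 * D2 = 0) : False := by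
  have a1 : (b2 * B2 * s) * (c1 * C1 * s) = (b3 * B3 * r) * (c3 * C3 * p) := by
    linear_combination (c1 * C1 * s) * e1 - (b3 * B3 * r) * e2
  have a2 : (b2 * d2 * s) * (c1 * d1 * s) = (b3 * d3 * r) * (c3 * d3 * p) := by
    linear_combination (c1 * d1 * s) * e3 - (b3 * d3 * r) * e4
  have a3 : (B2 * D2 * s) * (C1 * D1 * s) = (B3 * D3 * r) * (C3 * D3 * p) := by
    linear_combination (C1 * D1 * s) * e5 - (B3 * D3 * r) * e6
  have a4 : (b3 * B3 * c3 * C3) * ((p * r) * ((d1 * d2 * s) ^ 2 + (d3 * D3) ^ 2 * (p * r))) = 0 := by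
    linear_combination (-(B2 * D2 * s) * (C1 * D1 * s)) * a2 - ((b3 * d3 * r) * (c3 * d3 * p)) * a3 +
      (d1 * d2 * D1 * D2 * s ^ 2) * a1 + (b3 * B3 * c3 * C3 * p * r * d1 * d2 * s ^ 2) * e7
  have : 0 < (p * r) * ((d1 * d2 * s) ^ 2 + (d3 * D3) ^ 2 * (p * r)) := by positivity
  exact mul_ne_zero n1 this.ne' a4

lemma no (k : ℕ) (hk : k ≤ 3) : ¬ Achieves G k := fun h => by
  obtain ⟨B, ⟨hs, hB⟩, c, hc, hr⟩ := proj G k h
  have z : ∀ i j, i ≠ j → ¬ G.Adj i j → B i j = 0 := fun i j e h => by simpa [h] using hB i j e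
  have nz : ∀ i j, G.Adj i j → B i j ≠ 0 := fun i j h => (hB i j h.ne).2 h
  have sy : ∀ i j, B j i = B i j := fun i j => hs.apply i j
  have dg : ∀ i j, G.Adj i j → 0 < c * B i i := fun i j h => by
    have := congrFun (congrFun hc i) i
    simp only [mul_apply, Matrix.smul_apply, smul_eq_mul] at this
    rw [← this]
    refine Finset.sum_pos' (fun l _ => by rw [sy i l]; exact mul_self_nonneg _) ⟨j, by simp, ?_⟩
    rw [sy i j]
    exact mul_self_pos.2 (nz i j h)
  have p0 := dg 0 5 (by decide)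
  have p1 := dg 1 3 (by decide)
  have n0 : B 0 0 ≠ 0 := fun e => by simp [e] at p0
  have n1 : B 1 1 ≠ 0 := fun e => by simp [e] at p1
  have m : ∀ x y, B x y = 0 →
      B 0 x * B 0 y * B 1 1 * B 2 2 + B 1 x * B 1 y * B 0 0 * B 2 2 + B 2 x * B 2 y * B 0 0 * B 1 1 = 0 := by
    intro x y e
    have : (B.submatrix ![0, 1, 2, x] ![0, 1, 2, y]).det = 0 := by
      by_contra hd
      have := rank_of_isUnit _ ((isUnit_iff_isUnit_det _).2 (Ne.isUnit hd))
      have := rank_submatrix_le B ![0, 1, 2, x] ![0, 1, 2, y]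
      simp only [Fintype.card_fin] at *
      omega
    simp [det_succ_row_zero, Fin.sum_univ_succ, Fin.succAbove, z 0 1 (by decide) (by decide),
      z 0 2 (by decide) (by decide), z 1 2 (by decide) (by decide), z 1 0 (by decide) (by decide),
      z 2 0 (by decide) (by decide), z 2 1 (by decide) (by decide), e, sy 0 x, sy 1 x, sy 2 x] at this
    linear_combination -this
  have e7 := congrFun (congrFun hc 0) 1
  have e1 := m 3 4 (z _ _ (by decide) (by decide))
  have e2 := m 5 6 (z _ _ (by decide) (by decide))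
  have e3 := m 3 7 (z _ _ (by decide) (by decide))
  have e4 := m 5 7 (z _ _ (by decide) (by decide))
  have e5 := m 4 8 (z _ _ (by decide) (by decide))
  have e6 := m 6 8 (z _ _ (by decide) (by decide))
  simp only [mul_apply, Fin.sum_univ_succ, Fin.sum_univ_zero, Matrix.smul_apply, smul_eq_mul,
    Fin.succ_zero_eq_one, Fin.succ_one_eq_two, Fin.reduceSucc, sy 1] at e7
  simp only [z 0 2 (by decide) (by decide), z 0 3 (by decide) (by decide),
    z 0 4 (by decide) (by decide), z 1 5 (by decide) (by decide), z 1 6 (by decide) (by decide),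
    z 1 0 (by decide) (by decide)] at e1 e2 e3 e4 e5 e6 e7
  refine alg (B 0 0) (B 1 1) (B 2 2) (B 1 3) (B 2 3) (B 0 5) (B 2 5) (B 0 7) (B 1 7) (B 2 7)
    (B 1 4) (B 2 4) (B 0 6) (B 2 6) (B 0 8) (B 1 8) (B 2 8) ?_ ?_ ?_
    (mul_left_cancel₀ n0 (by linear_combination e1)) (mul_left_cancel₀ n1 (by linear_combination e2))
    (mul_left_cancel₀ n0 (by linear_combination e3)) (mul_left_cancel₀ n1 (by linear_combination e4))
    (mul_left_cancel₀ n0 (by linear_combination e5)) (mul_left_cancel₀ n1 (by linear_combination e6))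
    (by linear_combination e7)
  · have := mul_pos p0 p1
    by_contra hh
    nlinarith [sq_nonneg c]
  · exact mul_ne_zero (mul_ne_zero (mul_ne_zero (nz _ _ (by decide)) (nz _ _ (by decide)))
      (nz _ _ (by decide))) (nz _ _ (by decide))
  · exact mul_ne_zero (nz _ _ (by decide)) (nz _ _ (by decide))

def V : Matrix (Fin 4) (Fin 9) ℤ :=
  !![1, 0, 0, 0, 0, 1, 2, 1, 4; 0, 1, 0, 2, 3, 0, 0, 4, -1; 0, 0, 1, 2, -3, -1, 2, 1, -1;
     0, 0, 0, -5, 0, 0, 3, 2, -2]

def w : Fin 9 → ℕ := ![20, 12, 22, 1, 1, 1, 1, 1, 1]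

noncomputable def V' : Matrix (Fin 4) (Fin 9) ℝ := fun k i => V k i * √(w i)

lemma memS : V'ᵀ * V' ∈ S G := by
  refine ⟨by simp [IsSymm], fun i j e => ?_⟩
  have h : ∀ i j, i ≠ j → (∑ k, V k i * V k j ≠ 0 ↔ G.Adj i j) := by decide
  have hw : ∀ i, √(w i : ℝ) ≠ 0 := fun i => by
    have : ∀ i, 0 < w i := by decide
    exact Real.sqrt_ne_zero'.2 (by exact_mod_cast this i)
  have : (V'ᵀ * V') i j = ((∑ k, V k i * V k j : ℤ) : ℝ) * (√(w i) * √(w j)) := by
    simp only [mul_apply, transpose_apply, V', Int.cast_sum, Int.cast_mul, Finset.sum_mul]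
    exact Finset.sum_congr rfl fun _ _ => by ring
  rw [this, ← h i j e]
  simp only [ne_eq, mul_eq_zero, hw, or_false, Int.cast_eq_zero]

lemma chp : (V'ᵀ * V').charpoly = (X - C 0) ^ (9 - 4) * (X - C 42) ^ 4 := by
  have : V' * V'ᵀ = diagonal fun _ => 42 := by
    ext i j
    have h : ∀ i j, ∑ k, V i k * V j k * w k = if i = j then 42 else 0 := by decide
    have := congrArg (Int.cast : ℤ → ℝ) (h i j)
    simp only [Int.cast_sum, Int.cast_mul, Int.cast_ite, Int.cast_ofNat, Int.cast_zero,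
      Int.cast_natCast] at this
    simp only [mul_apply, transpose_apply, V', diagonal_apply, ← this]
    refine Finset.sum_congr rfl fun k _ => ?_
    linear_combination (V i k * V j k : ℝ) * Real.mul_self_sqrt (Nat.cast_nonneg (w k))
  rw [charpoly_mul_comm_of_le _ _ (by simp), this, charpoly_diagonal]
  simp

theorem result : ∃ (n : ℕ) (G : SimpleGraph (Fin n)), G.Connected ∧ q G = 2 ∧ mrPlus G < MB G := by
  refine ⟨9, G, by decide +kernel, le_antisymm (Nat.sInf_le ⟨_, memS, le_antisymm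
    (low G (i := 0) (j := 5) (by decide) _ memS) ?_⟩) (le_csInf ⟨_, _, memS, rfl⟩
    fun k ⟨A, hA, e⟩ => e ▸ low G (i := 0) (j := 5) (by decide) A hA), ?_⟩
  · refine (Set.ncard_le_ncard (t := {0, 42}) fun x hx => ?_).trans
      ((Set.ncard_insert_le _ _).trans (by simp))
    rw [mem_spectrum_iff_isRoot_charpoly, chp] at hx
    simpa [sub_eq_zero] using hx
  · have h4 : 4 ≤ MB G := le_csInf ⟨4, by norm_num, by norm_num, _, memS, 0, 42, by norm_num, chp⟩
      fun k hk => by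
        by_contra hc
        exact no k (by omega) hk.2.2
    let W' : Matrix (Fin 3) (Fin 9) ℝ := fun k i => W k i
    have : mrPlus G ≤ (W'ᵀ * W').rank := Nat.sInf_le ⟨W'ᵀ * W', ⟨by simp [IsSymm], fun i j e => by
      have : (W'ᵀ * W') i j = ((∑ k, W k i * W k j : ℤ) : ℝ) := by simp [mul_apply, W']
      rw [this, Int.cast_ne_zero]
      exact ⟨fun h => ⟨e, h⟩, fun h => h.2⟩⟩,
      by simpa using posSemidef_conjTranspose_mul_self W', rfl⟩
    have h3 := (rank_mul_le_right W'ᵀ W').trans (rank_le_height W')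
    omega

end Pool.Agent.Results.MP_558aee_co.Ex
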